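import Pool.Agent.KX.L_width_all
import Pool.Agent.H636R2.SM.ALL

namespace Pool.Agent.Results.MP_4140a0_an.WidthComplete

open MeasureTheory
open scoped ENNReal

/-- Normalised Lebesgue measure on the torus `[0,2π)^d`. -/
noncomputable def TP (d : ℕ) : Measure (Fin d → ℝ) :=
  Measure.pi (fun _ : Fin d => ENNReal.ofReal (2 * Real.pi)⁻¹ •
    volume.restrict (Set.Ico 0 (2 * Real.pi)))

/-- Bernoulli kernel `1 + 2 ∑_{k ≥ 1} k^(-r) cos(k x - α π/2)` in one variable; the sum of the series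
is the limit of its partial sums. -/
noncomputable def F1 (r α x : ℝ) : ℝ :=
  Filter.limUnder Filter.atTop (fun N : ℕ =>
    1 + 2 * ∑ k ∈ Finset.range N, ((k:ℝ)+1)^(-r) * Real.cos (((k:ℝ)+1) * x - α * Real.pi / 2))

/-- The kernel in `d` variables. -/
noncomputable def Fr {d : ℕ} (r : ℝ) (α x : Fin d → ℝ) : ℝ := ∏ j, F1 r (α j) (x j)

/-- The class `W^r_{q,α}` of functions with bounded mixed derivative, with values in `𝕜`
(the real or the complex numbers). -/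
def MW (𝕜 : Type) [RCLike 𝕜] (d : ℕ) (r : ℝ) (q : ℝ≥0∞) (α : Fin d → ℝ) :
    Set ((Fin d → ℝ) → 𝕜) :=
  {f | ∃ φ : (Fin d → ℝ) → 𝕜, MemLp φ q (TP d) ∧ eLpNorm φ q (TP d) ≤ 1 ∧
    f = fun x => ∫ y, Fr r α (x - y) • φ y ∂(TP d)}

/-- The Kolmogorov width `d_m(Θ, L_∞)`: infimum over all linear subspaces `U` of `L_∞` (with
scalars `𝕜`) of dimension at most `m` of the supremum over `f ∈ Θ` of the distance of `f` to `U`
in the (essential) sup norm. -/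
noncomputable def kolWidth {𝕜 : Type} [RCLike 𝕜] {d : ℕ} (m : ℕ) (Θ : Set ((Fin d → ℝ) → 𝕜)) :
    ℝ≥0∞ :=
  ⨅ (U : Submodule 𝕜 ((Fin d → ℝ) → 𝕜)) (_ : Module.Finite 𝕜 U ∧ Module.finrank 𝕜 U ≤ m ∧
    ∀ u ∈ U, MemLp u ⊤ (TP d)), ⨆ f ∈ Θ, ⨅ u ∈ U, eLpNorm (fun x => f x - u x) ⊤ (TP d)

/-- The order of the widths. -/
noncomputable def psi (d : ℕ) (r : ℝ) (m : ℕ) : ℝ :=
  if r < 1/2 then (m:ℝ)^(-r) * (Real.log m)^(((d:ℝ)-1) * (1 - r) + r)
  else if r = 1/2 then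
    (m:ℝ)^(-(1/2:ℝ)) * (Real.log m)^((d:ℝ)/2) * (Real.log (Real.log m + 3))^(1/2:ℝ)
  else (m:ℝ)^(-r) * (Real.log m)^(((d:ℝ)-1) * r + 1/2)

/-- For every `d ≥ 3`, `2 ≤ q ≤ ∞`, every `r > 1/q` and all `α`, the width
`d_m(W^r_{q,α}, L_∞)` has exact order `psi d r m`. -/
theorem result (𝕜 : Type) [RCLike 𝕜] (d : ℕ) (hd : 3 ≤ d) (q : ℝ≥0∞) (hq : 2 ≤ q) (r : ℝ)
    (hr : 1/q < ENNReal.ofReal r) (α : Fin d → ℝ) : ∃ c C : ℝ, 0 < c ∧ 0 < C ∧ ∀ m : ℕ, 2 ≤ m →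
      ENNReal.ofReal (c * psi d r m) ≤ kolWidth m (MW 𝕜 d r q α) ∧
      kolWidth m (MW 𝕜 d r q α) ≤ ENNReal.ofReal (C * psi d r m) := by
  have hr0 : 0 < r := by
    by_contra h
    rw [ENNReal.ofReal_of_nonpos (not_lt.1 h)] at hr
    exact absurd hr (by simp)
  rcases lt_trichotomy r (1/2) with h | h | h
  · -- small smoothness; here `q > 2`
    have hq2 : 2 < q := by
      refine lt_of_le_of_ne hq ?_
      rintro rfl
      have h1 : ENNReal.ofReal r < ENNReal.ofReal (1/2) :=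
        (ENNReal.ofReal_lt_ofReal_iff (by norm_num)).2 h
      have h2 : ENNReal.ofReal (1/2) = 1/2 := by
        rw [ENNReal.ofReal_div_of_pos (by norm_num)]; simp
      rw [h2] at h1
      exact absurd (hr.trans h1) (lt_irrefl _)
    obtain ⟨c, C, hc, hC, hm⟩ := (SmSm.all_final 𝕜 d hd α q hq2).1 r hr hr0 h
    refine ⟨c, C, hc, hC, fun m hm2 => ?_⟩
    have e : psi d r m = SmSm.psiA d r m := by simp only [psi, if_pos h, SmSm.psiA]
    rw [e]
    exact hm m hm2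
  · -- the critical smoothness
    subst h
    have hq2 : 2 < q := by
      refine lt_of_le_of_ne hq ?_
      rintro rfl
      have h2 : ENNReal.ofReal (1/2) = 1/2 := by
        rw [ENNReal.ofReal_div_of_pos (by norm_num)]; simp
      rw [h2] at hr
      exact absurd hr (lt_irrefl _)
    obtain ⟨c, C, hc, hC, hm⟩ := (SmSm.all_final 𝕜 d hd α q hq2).2
    refine ⟨c, C, hc, hC, fun m hm2 => ?_⟩
    have e : psi d (1/2) m = SmSm.psiB d m := by
      simp only [psi, if_neg (lt_irrefl (1/2:ℝ)), if_true, SmSm.psiB]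
    rw [e]
    exact hm m hm2
  · obtain ⟨c, hc, h1⟩ := HypVol.width_all_lower 𝕜 d hd q r h α
    obtain ⟨C, hC, h2⟩ := HypVol.width_up2 𝕜 d (by omega) q hq r h α
    have e : ∀ m : ℕ, psi d r m = (m:ℝ)^(-r) * (Real.log m)^(((d:ℝ)-1) * r + 1/2) := by
      intro m
      simp only [psi, if_neg (not_lt.2 h.le), if_neg (ne_of_gt h)]
    exact ⟨c, C, hc, hC, fun m hm => ⟨by rw [e]; exact h1 m hm, by rw [e]; exact h2 m hm⟩⟩

end Pool.Agent.Results.MP_4140a0_an.WidthComplete
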